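import Pool.Agent.Lib.MP_54fa60_lc.Main

set_option autoImplicit false

namespace Pool.Agent.Results.MP_54fa60_lc.ErasingElimination

open Pool.Agent.Lib.MP_54fa60_lc

/-- Up to the empty word, a language over a finite alphabet is generated by a propagating
one-sided permitting grammar if and only if it is generated by a one-sided permitting grammar
(erasing rules allowed). -/
theorem result : ∀ (T : Type) [Finite T] (L : Language T),
    (∃ G : Grammar T, G.Permitting ∧ G.Propagating ∧
        ∀ w : List T, w ≠ [] → (w ∈ G.language ↔ w ∈ L)) ↔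
      (∃ G : Grammar T, G.Permitting ∧ ∀ w : List T, w ≠ [] → (w ∈ G.language ↔ w ∈ L)) := by
  intro T _ L
  constructor
  · rintro ⟨G, h1, -, h2⟩
    exact ⟨G, h1, h2⟩
  · rintro ⟨G, h1, h2⟩
    obtain ⟨G', g1, g2, g3⟩ := exists_propagating G h1
    exact ⟨G', g1, g2, fun w hw => (g3 w hw).trans (h2 w hw)⟩

end Pool.Agent.Results.MP_54fa60_lc.ErasingElimination
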